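import Pool.Agent.H53.CZ.Targets

/-!
# Module DR: a dense neighbourhood gives a rich configuration
-/

namespace Pool.Agent.H73.CZ.DR

open Finset Pool.Agent.H53.CZD

theorem add_self_zmod {ι : Type} (x : ι → ZMod 2) : x + x = 0 := by
  funext i
  simp only [Pi.add_apply, Pi.zero_apply]
  exact CharTwo.add_self_eq_zero _

/-- The common part of the two cases. -/
theorem core (h_KST : KST) (h_DEP : DEP) (ι : Type) [Fintype ι] [DecidableEq ι]
    (S N : Finset (ι → ZMod 2)) (v : ι → ZMod 2) (q : ℕ) (hq : 1 ≤ q)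
    (Rel : (ι → ZMod 2) → (ι → ZMod 2) → Prop) [DecidableRel Rel]
    (hv : v = 0 ∨ v ∈ S) (hN : ∀ a ∈ N, a = 0 ∨ a ∈ S)
    (hz : ∀ u ∈ N, ∀ w ∈ N, Rel u w → v + u + w = 0 ∨ v + u + w ∈ S)
    (hbig : 2 ^ (7 * q ^ 2 + 2 * q + 1) < #N)
    (hd : #N ^ 2 ≤ 128 * #{p ∈ N ×ˢ N | Rel p.1 p.2}) : Rich S q := by
  classical
  have h1 := h_KST _ N Rel q hd
  have h2 := h_DEP ι N v q
  -- there is an independent pair
  obtain ⟨p, ha, hb, hr, hp2⟩ : ∃ p : (Fin q → ι → ZMod 2) × (Fin q → ι → ZMod 2),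
      (∀ i, p.1 i ∈ N) ∧ (∀ i, p.2 i ∈ N) ∧ (∀ i j, Rel (p.1 i) (p.2 j)) ∧
        ¬ ∃ x y : Fin q → ZMod 2, ¬ (x = 0 ∧ y = 0) ∧
          ((∑ i, x i • p.1 i) + (∑ j, y j • p.2 j) = 0 ∨
           (∑ i, x i • p.1 i) + (∑ j, y j • p.2 j) = v) := by
    by_contra hno
    have h4 : #N ^ (2 * q) ≤ 128 ^ (q ^ 2) * (2 ^ (2 * q + 1) * #N ^ (2 * q - 1)) := by
      refine h1.trans (Nat.mul_le_mul_left _ ?_)
      refine le_trans (Finset.card_le_card ?_) h2
      intro p hp
      rw [Finset.mem_filter, Finset.mem_product, Fintype.mem_piFinset, Fintype.mem_piFinset] at hp ⊢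
      refine ⟨hp.1, ?_⟩
      by_contra hp2
      exact hno ⟨p, hp.1.1, hp.1.2, hp.2, hp2⟩
    have hNpos : 0 < #N := lt_of_le_of_lt (Nat.zero_le _) hbig
    have h5 : #N ^ (2 * q) = #N * #N ^ (2 * q - 1) := by
      rw [← pow_succ']
      congr 1
      omega
    rw [h5, ← mul_assoc] at h4
    have h6 := Nat.le_of_mul_le_mul_right h4 (Nat.pow_pos hNpos)
    have h7 : 128 ^ (q ^ 2) * 2 ^ (2 * q + 1) = 2 ^ (7 * q ^ 2 + 2 * q + 1) := by
      rw [show (128 : ℕ) = 2 ^ 7 by norm_num, ← pow_mul, ← pow_add]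
      ring_nf
    rw [h7] at h6
    omega
  have hind : ∀ x y : Fin q → ZMod 2,
      ((∑ i, x i • p.1 i) + (∑ j, y j • p.2 j) = 0 ∨
        (∑ i, x i • p.1 i) + (∑ j, y j • p.2 j) = v) → x = 0 ∧ y = 0 := by
    intro x y hxy
    by_contra hne
    exact hp2 ⟨x, y, hne, hxy⟩
  have e1 : ∀ i : Fin q, ∑ i', (Pi.single i (1 : ZMod 2) : Fin q → ZMod 2) i' • p.1 i' = p.1 i := by
    intro i
    rw [Finset.sum_eq_single i]
    · simp
    · intro j _ hj
      simp [Pi.single_eq_of_ne hj]
    · simp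
  have e2 : ∀ i : Fin q, ∑ i', (Pi.single i (1 : ZMod 2) : Fin q → ZMod 2) i' • p.2 i' = p.2 i := by
    intro i
    rw [Finset.sum_eq_single i]
    · simp
    · intro j _ hj
      simp [Pi.single_eq_of_ne hj]
    · simp
  have e3 : ∀ i : Fin q, (Pi.single i (1 : ZMod 2) : Fin q → ZMod 2) ≠ 0 := by
    intro i h
    have := congrFun h i
    simp at this
  have haS : ∀ i, p.1 i ∈ S := by
    intro i
    rcases hN _ (ha i) with h | h
    · have := (hind (Pi.single i 1) 0 (Or.inl (by rw [e1, h]; simp))).1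
      exact absurd this (e3 i)
    · exact h
  have hbS : ∀ i, p.2 i ∈ S := by
    intro i
    rcases hN _ (hb i) with h | h
    · have := (hind 0 (Pi.single i 1) (Or.inl (by rw [e2, h]; simp))).2
      exact absurd this (e3 i)
    · exact h
  have hzS : ∀ i j, v + p.1 i + p.2 j ∈ S := by
    intro i j
    rcases hz _ (ha i) _ (hb j) (hr i j) with h | h
    · have h8 : p.1 i + p.2 j = v := by
        have h9 : v + (v + p.1 i + p.2 j) = v := by rw [h, add_zero]
        rw [← add_assoc, ← add_assoc, add_self_zmod, zero_add] at h9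
        exact h9
      have := (hind (Pi.single i 1) (Pi.single j 1) (Or.inr (by rw [e1, e2, h8]))).1
      exact absurd this (e3 i)
    · exact h
  have hspan : ∀ d ∈ Submodule.span (ZMod 2) {d : ι → ZMod 2 | d = v ∧ v ∈ S}, d = 0 ∨ d = v := by
    intro d hd'
    have h8 : d ∈ Submodule.span (ZMod 2) ({v} : Set (ι → ZMod 2)) :=
      Submodule.span_mono (fun w hw => by
        rw [Set.mem_singleton_iff]
        exact hw.1) hd'
    rw [Submodule.mem_span_singleton] at h8
    obtain ⟨c, rfl⟩ := h8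
    have hc : c = 0 ∨ c = 1 := (by decide : ∀ c : ZMod 2, c = 0 ∨ c = 1) c
    rcases hc with rfl | rfl
    · left; simp
    · right; simp
  refine ⟨{d | d = v ∧ v ∈ S}, p.1, p.2, fun i j => v + p.1 i + p.2 j, ?_, haS, hbS, hzS, ?_, ?_⟩
  · rintro d ⟨rfl, h⟩
    exact h
  · intro i j
    have h8 : v + p.1 i + p.2 j + p.1 i + p.2 j = v := by
      have : v + p.1 i + p.2 j + p.1 i + p.2 j = v + (p.1 i + p.1 i) + (p.2 j + p.2 j) := by abel
      rw [this, add_self_zmod, add_self_zmod, add_zero, add_zero]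
    rw [h8]
    rcases hv with h | h
    · rw [h]
      exact Submodule.zero_mem _
    · exact Submodule.subset_span ⟨rfl, h⟩
  · intro x y hxy
    exact hind x y (hspan _ hxy)

theorem dr (h_KST : KST) (h_DEP : DEP) : DR := by
  intro ι _ _ S C N x q h0 hC hx hNC hxN hbig hcase
  classical
  rcases Nat.eq_zero_or_pos q with rfl | hq
  · exact ⟨∅, Fin.elim0, Fin.elim0, fun i => i.elim0, by simp, fun i => i.elim0, fun i => i.elim0,
      fun i => i.elim0, fun i => i.elim0, fun x y _ => ⟨Subsingleton.elim _ _, Subsingleton.elim _ _⟩⟩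
  have hC' : ∀ c ∈ C, c = 0 ∨ c ∈ S := fun c hc => Finset.mem_insert.1 (hC hc)
  rcases hcase with hd | hd
  · refine core h_KST h_DEP ι S N 0 q hq (fun y w => y + w ∈ S) (Or.inl rfl)
      (fun a ha => hC' a (hNC ha)) ?_ hbig hd
    intro u _ w _ h
    right
    rw [zero_add]
    exact h
  · have hinj : Function.Injective (fun y : ι → ZMod 2 => x + y) := add_right_injective x
    have hcard : #(N.image fun y => x + y) = #N := Finset.card_image_of_injective _ hinj
    have hxx : ∀ y : ι → ZMod 2, x + (x + y) = y := by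
      intro y
      rw [← add_assoc, add_self_zmod, zero_add]
    refine core h_KST h_DEP ι S (N.image fun y => x + y) x q hq
      (fun u w => u ≠ w ∧ x + u + w ∈ C) (hC' x hx) ?_ ?_ ?_ ?_
    · intro a ha
      obtain ⟨y, hy, rfl⟩ := Finset.mem_image.1 ha
      exact Or.inr (hxN y hy)
    · intro u _ w _ h
      exact hC' _ h.2
    · rw [hcard]
      exact hbig
    · rw [hcard]
      refine hd.trans (Nat.mul_le_mul_left _ ?_)
      refine Finset.card_le_card_of_injOn (fun p => (x + p.1, x + p.2)) ?_ ?_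
      · intro p hp
        rw [Finset.mem_coe, Finset.mem_filter, Finset.mem_product] at hp ⊢
        obtain ⟨⟨h1, h2⟩, h3, h4⟩ := hp
        refine ⟨⟨Finset.mem_image_of_mem _ h1, Finset.mem_image_of_mem _ h2⟩, ?_, ?_⟩
        · exact fun h => h3 (hinj h)
        · have : x + (x + p.1) + (x + p.2) = x + p.1 + p.2 := by
            rw [hxx]
            abel
          simp only
          rw [this]
          exact h4
      · intro p _ p' _ h
        simp only [Prod.mk.injEq] at h
        exact Prod.ext (hinj h.1) (hinj h.2)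

end Pool.Agent.H73.CZ.DR
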