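import Pool.Agent.H53.CZ.Targets

/-!
# Module SHC: counting pairs under a contraction
-/

namespace Pool.Agent.H73.CZ.SHC

open Finset Pool.Agent.H53.CZD

variable {ι : Type} [Fintype ι] [DecidableEq ι]

theorem add_self_zmod (x : ι → ZMod 2) : x + x = 0 := by
  funext i
  simp only [Pi.add_apply, Pi.zero_apply]
  exact CharTwo.add_self_eq_zero _

theorem add_add_cancel' (x h : ι → ZMod 2) : x + h + h = x := by
  rw [add_assoc, add_self_zmod, add_zero]

theorem z2 (c : ZMod 2) : c = 0 ∨ c = 1 := (by decide : ∀ c : ZMod 2, c = 0 ∨ c = 1) c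

theorem contr_apply (h : ι → ZMod 2) (t : ι) (x : ι → ZMod 2) :
    contr h t x = x + x t • h := by
  unfold contr
  simp

/-- The kernel of the contraction. -/
theorem contr_eq_iff (h : ι → ZMod 2) (t : ι) (ht : h t = 1) (x y : ι → ZMod 2) :
    contr h t x = contr h t y ↔ x = y ∨ x = y + h := by
  rw [contr_apply, contr_apply]
  constructor
  · intro e
    rcases z2 (x t) with h1 | h1 <;> rcases z2 (y t) with h2 | h2
    · rw [h1, h2, zero_smul, add_zero, add_zero] at e
      exact Or.inl e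
    · rw [h1, h2, zero_smul, add_zero, one_smul] at e
      exact Or.inr e
    · rw [h1, h2, zero_smul, add_zero, one_smul] at e
      right
      rw [← e, add_add_cancel']
    · rw [h1, h2, one_smul] at e
      exact Or.inl (add_right_cancel e)
  · rintro (rfl | rfl)
    · rfl
    · have : (y + h) t = y t + 1 := by rw [Pi.add_apply, ht]
      rw [this, add_smul, one_smul]
      have e : y + h + (y t • h + h) = y + y t • h + (h + h) := by abel
      rw [e, add_self_zmod, add_zero]

theorem contr_zero_iff (h : ι → ZMod 2) (t : ι) (ht : h t = 1) (x : ι → ZMod 2) :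
    contr h t x = 0 ↔ x = 0 ∨ x = h := by
  have := contr_eq_iff h t ht x 0
  rw [map_zero, zero_add] at this
  exact this

/-- The elements `x` of `C` with `x + h` in `C`. -/
def Bs (C : Finset (ι → ZMod 2)) (h : ι → ZMod 2) : Finset (ι → ZMod 2) := {x ∈ C | x + h ∈ C}

/-- The part with coordinate `e`. -/
def Be (C : Finset (ι → ZMod 2)) (h : ι → ZMod 2) (t : ι) (e : ZMod 2) : Finset (ι → ZMod 2) :=
  {x ∈ Bs C h | x t = e}

theorem mem_Bs {C : Finset (ι → ZMod 2)} {h x : ι → ZMod 2} :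
    x ∈ Bs C h ↔ x ∈ C ∧ x + h ∈ C := by
  unfold Bs
  rw [Finset.mem_filter]

theorem mem_Be {C : Finset (ι → ZMod 2)} {h x : ι → ZMod 2} {t : ι} {e : ZMod 2} :
    x ∈ Be C h t e ↔ (x ∈ C ∧ x + h ∈ C) ∧ x t = e := by
  unfold Be
  rw [Finset.mem_filter, mem_Bs]

theorem Be_add {C : Finset (ι → ZMod 2)} {h x : ι → ZMod 2} {t : ι} {e : ZMod 2} (ht : h t = 1)
    (hx : x ∈ Be C h t e) : x + h ∈ Be C h t (e + 1) := by
  rw [mem_Be] at hx ⊢
  refine ⟨⟨hx.1.2, ?_⟩, ?_⟩
  · rw [add_add_cancel']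
    exact hx.1.1
  · rw [Pi.add_apply, ht, hx.2]

theorem card_Be (C : Finset (ι → ZMod 2)) (h : ι → ZMod 2) (t : ι) (ht : h t = 1) :
    #(Be C h t 0) = #(Be C h t 1) := by
  have key : ∀ e : ZMod 2, #(Be C h t e) ≤ #(Be C h t (e + 1)) := by
    intro e
    refine Finset.card_le_card_of_injOn (fun x => x + h) (fun x hx => Be_add ht hx) ?_
    intro x _ y _ hxy
    exact add_right_cancel hxy
  have h1 := key 0
  have h2 := key 1
  rw [zero_add] at h1
  have : (1 : ZMod 2) + 1 = 0 := by decide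
  rw [this] at h2
  exact le_antisymm h1 h2

theorem sum_Be {M : Type*} [AddCommMonoid M] (C : Finset (ι → ZMod 2)) (h : ι → ZMod 2) (t : ι)
    (f : (ι → ZMod 2) → M) :
    ∑ x ∈ Bs C h, f x = ∑ x ∈ Be C h t 0, f x + ∑ x ∈ Be C h t 1, f x := by
  rw [← Finset.sum_filter_add_sum_filter_not (Bs C h) (fun x => x t = 0)]
  congr 1
  apply Finset.sum_congr _ fun _ _ => rfl
  ext x
  unfold Be
  rw [Finset.mem_filter, Finset.mem_filter]
  refine and_congr_right fun _ => ?_
  rcases z2 (x t) with h1 | h1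
  · rw [h1]; simp
  · rw [h1]; simp

/-- `p` is injective on the complement of `Be`. -/
theorem inj_C1 (C : Finset (ι → ZMod 2)) (h : ι → ZMod 2) (t : ι) (ht : h t = 1) (e : ZMod 2)
    {x y : ι → ZMod 2} (hx : x ∈ C \ Be C h t e) (hy : y ∈ C \ Be C h t e) (hxy : x ≠ y) :
    x ≠ y + h := by
  rintro rfl
  rw [Finset.mem_sdiff] at hx hy
  have hyB : (y ∈ C ∧ y + h ∈ C) := ⟨hy.1, hx.1⟩
  have hy2 : y t ≠ e := fun h1 => hy.2 (mem_Be.2 ⟨hyB, h1⟩)
  have hx2 : (y + h) t ≠ e := fun h1 => hx.2 (mem_Be.2 ⟨⟨hyB.2, by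
    rw [add_add_cancel']; exact hyB.1⟩, h1⟩)
  rw [Pi.add_apply, ht] at hx2
  have : ∀ a e : ZMod 2, a ≠ e → a + 1 ≠ e → False := by decide
  exact this _ _ hy2 hx2

theorem injOn_C1 (C : Finset (ι → ZMod 2)) (h : ι → ZMod 2) (t : ι) (ht : h t = 1) (e : ZMod 2) :
    Set.InjOn (contr h t) (C \ Be C h t e : Finset (ι → ZMod 2)) := by
  intro x hx y hy hxy
  rw [contr_eq_iff h t ht] at hxy
  rcases hxy with h1 | h1
  · exact h1
  · by_contra hne
    exact inj_C1 C h t ht e hx hy hne h1

theorem image_C1 (C : Finset (ι → ZMod 2)) (h : ι → ZMod 2) (t : ι) (ht : h t = 1) (e : ZMod 2) :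
    (C \ Be C h t e).image (contr h t) = C.image (contr h t) := by
  apply le_antisymm (Finset.image_subset_image Finset.sdiff_subset)
  intro y hy
  obtain ⟨x, hx, rfl⟩ := Finset.mem_image.1 hy
  by_cases hxe : x ∈ Be C h t e
  · refine Finset.mem_image.2 ⟨x + h, ?_, ?_⟩
    · rw [Finset.mem_sdiff]
      refine ⟨(mem_Be.1 hxe).1.2, fun h1 => ?_⟩
      have h2 := (mem_Be.1 h1).2
      rw [Pi.add_apply, ht, (mem_Be.1 hxe).2] at h2
      have : ∀ e : ZMod 2, e + 1 ≠ e := by decide
      exact this _ h2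
    · rw [contr_eq_iff h t ht]
      exact Or.inr rfl
  · exact Finset.mem_image.2 ⟨x, Finset.mem_sdiff.2 ⟨hx, hxe⟩, rfl⟩

theorem card_image (C : Finset (ι → ZMod 2)) (h : ι → ZMod 2) (t : ι) (ht : h t = 1) (e : ZMod 2) :
    #(C.image (contr h t)) + #(Be C h t e) = #C := by
  rw [← image_C1 C h t ht e, Finset.card_image_of_injOn (injOn_C1 C h t ht e)]
  exact Finset.card_sdiff_add_card_eq_card (fun x hx => (mem_Be.1 hx).1.1)

/-- The bound for one choice of the removed elements. -/
theorem claim (S C : Finset (ι → ZMod 2)) (h : ι → ZMod 2) (t : ι) (ht : h t = 1)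
    (h0 : (0 : ι → ZMod 2) ∉ S) (e : ZMod 2) :
    ecount S C ≤ ecount (shrink S h t) (C.image (contr h t)) +
      2 * ∑ x ∈ Be C h t e, (1 + gd S C x h) := by
  classical
  set R := Be C h t e with hR
  set C1 := C \ R with hC1
  -- the pairs with an element of `R`
  let E0 : Finset ((ι → ZMod 2) × (ι → ZMod 2)) := {p ∈ C ×ˢ C | p.1 + p.2 ∈ S}
  let E11 : Finset ((ι → ZMod 2) × (ι → ZMod 2)) := {p ∈ C1 ×ˢ C1 | p.1 + p.2 ∈ S}
  let F : Finset ((ι → ZMod 2) × (ι → ZMod 2)) := {p ∈ R ×ˢ C | p.1 + p.2 ∈ S}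
  let F3 : Finset ((ι → ZMod 2) × (ι → ZMod 2)) := {p ∈ R ×ˢ C | p.2 ≠ p.1 + h ∧ p.1 + p.2 ∈ S ∧
    ¬ (p.2 + p.1 + h ∈ S ∨ p.2 + h ∈ C)}
  have hE0 : ecount S C = #E0 := rfl
  -- step 1
  have s1 : #E0 ≤ #E11 + 2 * #F := by
    have h1 : E0 ⊆ E11 ∪ (F ∪ F.image Prod.swap) := by
      intro p hp
      rw [Finset.mem_filter, Finset.mem_product] at hp
      obtain ⟨⟨ha, hb⟩, hs⟩ := hp
      rw [Finset.mem_union, Finset.mem_union]
      by_cases h1 : p.1 ∈ R
      · exact Or.inr (Or.inl (Finset.mem_filter.2 ⟨Finset.mem_product.2 ⟨h1, hb⟩, hs⟩))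
      · by_cases h2 : p.2 ∈ R
        · refine Or.inr (Or.inr (Finset.mem_image.2 ⟨p.swap, ?_, Prod.swap_swap p⟩))
          exact Finset.mem_filter.2 ⟨Finset.mem_product.2 ⟨h2, ha⟩, by
            simp only [Prod.fst_swap, Prod.snd_swap]
            rw [add_comm]
            exact hs⟩
        · exact Or.inl (Finset.mem_filter.2 ⟨Finset.mem_product.2
            ⟨Finset.mem_sdiff.2 ⟨ha, h1⟩, Finset.mem_sdiff.2 ⟨hb, h2⟩⟩, hs⟩)
    have h2 := (Finset.card_le_card h1).trans (Finset.card_union_le _ _)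
    have h3 := Finset.card_union_le F (F.image Prod.swap)
    have h4 := Finset.card_image_le (s := F) (f := Prod.swap)
    omega
  -- step 2
  have s2 : #F ≤ #F3 + ∑ x ∈ R, (1 + gd S C x h) := by
    have h1 : F ⊆ F3 ∪ (R.image (fun x => (x, x + h)) ∪
        R.biUnion fun x => ({w ∈ C | w ≠ x + h ∧ x + w ∈ S ∧ (w + x + h ∈ S ∨ w + h ∈ C)}).image
          fun w => (x, w)) := by
      rintro ⟨x, w⟩ hp
      rw [Finset.mem_filter, Finset.mem_product] at hp
      obtain ⟨⟨ha, hb⟩, hs⟩ := hp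
      simp only at ha hb hs
      rw [Finset.mem_union, Finset.mem_union]
      by_cases h1 : w = x + h
      · exact Or.inr (Or.inl (Finset.mem_image.2 ⟨x, ha, by rw [h1]⟩))
      · by_cases h2 : w + x + h ∈ S ∨ w + h ∈ C
        · refine Or.inr (Or.inr (Finset.mem_biUnion.2 ⟨x, ha, Finset.mem_image.2 ⟨w, ?_, rfl⟩⟩))
          exact Finset.mem_filter.2 ⟨hb, h1, hs, h2⟩
        · exact Or.inl (Finset.mem_filter.2 ⟨Finset.mem_product.2 ⟨ha, hb⟩, h1, hs, h2⟩)
    have h2 := (Finset.card_le_card h1).trans (Finset.card_union_le _ _)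
    have h3 := Finset.card_union_le (R.image (fun x => (x, x + h)))
      (R.biUnion fun x => ({w ∈ C | w ≠ x + h ∧ x + w ∈ S ∧ (w + x + h ∈ S ∨ w + h ∈ C)}).image
          fun w => (x, w))
    have h4 : #(R.image (fun x => (x, x + h))) ≤ #R := Finset.card_image_le
    have h5 : #(R.biUnion fun x =>
        ({w ∈ C | w ≠ x + h ∧ x + w ∈ S ∧ (w + x + h ∈ S ∨ w + h ∈ C)}).image
          fun w => (x, w)) ≤ ∑ x ∈ R, gd S C x h := by
      refine Finset.card_biUnion_le.trans (Finset.sum_le_sum fun x _ => ?_)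
      exact Finset.card_image_le
    rw [Finset.sum_add_distrib, Finset.sum_const, smul_eq_mul, mul_one]
    omega
  -- step 3
  have s3 : #E11 + 2 * #F3 ≤ ecount (shrink S h t) (C.image (contr h t)) := by
    let A1 := F3.image fun p => (p.1 + h, p.2)
    let A2 := F3.image fun p => (p.2, p.1 + h)
    have c1 : #A1 = #F3 := by
      apply Finset.card_image_of_injOn
      intro p _ p' _ hp
      simp only [Prod.mk.injEq] at hp
      exact Prod.ext (add_right_cancel hp.1) hp.2
    have c2 : #A2 = #F3 := by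
      apply Finset.card_image_of_injOn
      intro p _ p' _ hp
      simp only [Prod.mk.injEq] at hp
      exact Prod.ext (add_right_cancel hp.2) hp.1
    have d1 : Disjoint E11 A1 := by
      rw [Finset.disjoint_left]
      rintro p hp hp'
      obtain ⟨q, hq, rfl⟩ := Finset.mem_image.1 hp'
      have h1 := (Finset.mem_filter.1 hp).2
      have h2 := (Finset.mem_filter.1 hq).2.2.2
      apply h2
      left
      simp only at h1
      rw [show q.2 + q.1 + h = q.1 + h + q.2 by abel]
      exact h1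
    have d2 : Disjoint E11 A2 := by
      rw [Finset.disjoint_left]
      rintro p hp hp'
      obtain ⟨q, hq, rfl⟩ := Finset.mem_image.1 hp'
      have h1 := (Finset.mem_filter.1 hp).2
      have h2 := (Finset.mem_filter.1 hq).2.2.2
      apply h2
      left
      simp only at h1
      rw [add_assoc]
      exact h1
    have d3 : Disjoint A1 A2 := by
      rw [Finset.disjoint_left]
      rintro p hp hp'
      obtain ⟨q, hq, rfl⟩ := Finset.mem_image.1 hp
      obtain ⟨q', hq', hqq⟩ := Finset.mem_image.1 hp'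
      simp only [Prod.mk.injEq] at hqq
      apply (Finset.mem_filter.1 hq').2.2.2
      right
      rw [hqq.1, add_add_cancel']
      exact (mem_Be.1 (Finset.mem_product.1 (Finset.mem_filter.1 hq).1).1).1.1
    have hcard : #(E11 ∪ (A1 ∪ A2)) = #E11 + 2 * #F3 := by
      rw [Finset.card_union_of_disjoint (by rw [Finset.disjoint_union_right]; exact ⟨d1, d2⟩),
        Finset.card_union_of_disjoint d3, c1, c2]
      ring
    rw [← hcard]
    -- elements of the union are pairs of `C1`
    have hF3 : ∀ q ∈ F3, q.1 + h ∈ C1 ∧ q.2 ∈ C1 ∧ q.1 + q.2 ∈ S ∧ q.2 ≠ q.1 + h := by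
      intro q hq
      rw [Finset.mem_filter, Finset.mem_product] at hq
      obtain ⟨⟨ha, hb⟩, hne, hs, hn⟩ := hq
      push Not at hn
      refine ⟨?_, ?_, hs, hne⟩
      · rw [hC1, Finset.mem_sdiff]
        refine ⟨(mem_Be.1 ha).1.2, fun h1 => ?_⟩
        have h2 := (mem_Be.1 h1).2
        rw [Pi.add_apply, ht, (mem_Be.1 ha).2] at h2
        have : ∀ e : ZMod 2, e + 1 ≠ e := by decide
        exact this _ h2
      · rw [hC1, Finset.mem_sdiff]
        exact ⟨hb, fun h1 => hn.2 (mem_Be.1 h1).1.2⟩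
    have hU : ∀ p ∈ E11 ∪ (A1 ∪ A2), p.1 ∈ C1 ∧ p.2 ∈ C1 ∧
        contr h t p.1 + contr h t p.2 ∈ shrink S h t := by
      intro p hp
      have hsh : ∀ s ∈ S, s ≠ h → contr h t s ∈ shrink S h t := by
        intro s hs hsh
        unfold shrink
        rw [Finset.mem_erase]
        refine ⟨?_, Finset.mem_image_of_mem _ hs⟩
        rw [ne_eq, contr_zero_iff h t ht]
        rintro (h1 | h1)
        · rw [h1] at hs
          exact h0 hs
        · exact hsh h1
      rcases Finset.mem_union.1 hp with hp | hp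
      · rw [Finset.mem_filter, Finset.mem_product] at hp
        obtain ⟨⟨ha, hb⟩, hs⟩ := hp
        refine ⟨ha, hb, ?_⟩
        rw [← map_add]
        refine hsh _ hs fun h1 => ?_
        have h2 : p.1 = p.2 + h := by
          rw [← h1, add_comm p.1 p.2, ← add_assoc, add_self_zmod, zero_add]
        have h3 : p.1 ≠ p.2 := by
          intro h3
          rw [h3] at hs
          rw [add_self_zmod] at hs
          exact h0 hs
        exact inj_C1 C h t ht e ha hb h3 h2
      · have hx : ∀ x : ι → ZMod 2, contr h t (x + h) = contr h t x := fun x => by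
          rw [contr_eq_iff h t ht]
          exact Or.inr rfl
        have hne : ∀ q : (ι → ZMod 2) × (ι → ZMod 2), q.2 ≠ q.1 + h → q.1 + q.2 ≠ h := by
          intro q hq h1
          apply hq
          rw [← h1, ← add_assoc, add_self_zmod, zero_add]
        rcases Finset.mem_union.1 hp with hp | hp
        · obtain ⟨q, hq, rfl⟩ := Finset.mem_image.1 hp
          obtain ⟨h1, h2, h3, h4⟩ := hF3 q hq
          refine ⟨h1, h2, ?_⟩
          simp only
          rw [hx, ← map_add]
          exact hsh _ h3 (hne q h4)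
        · obtain ⟨q, hq, rfl⟩ := Finset.mem_image.1 hp
          obtain ⟨h1, h2, h3, h4⟩ := hF3 q hq
          refine ⟨h2, h1, ?_⟩
          simp only
          rw [hx, ← map_add, add_comm]
          exact hsh _ h3 (hne q h4)
    unfold ecount
    refine Finset.card_le_card_of_injOn (fun p => (contr h t p.1, contr h t p.2)) ?_ ?_
    · intro p hp
      obtain ⟨h1, h2, h3⟩ := hU p hp
      rw [Finset.mem_coe, Finset.mem_filter, Finset.mem_product]
      exact ⟨⟨Finset.mem_image_of_mem _ (Finset.mem_sdiff.1 h1).1,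
        Finset.mem_image_of_mem _ (Finset.mem_sdiff.1 h2).1⟩, h3⟩
    · intro p hp p' hp' hpp
      simp only [Prod.mk.injEq] at hpp
      obtain ⟨h1, h2, _⟩ := hU p hp
      obtain ⟨h1', h2', _⟩ := hU p' hp'
      exact Prod.ext (injOn_C1 C h t ht e h1 h1' hpp.1) (injOn_C1 C h t ht e h2 h2' hpp.2)
  rw [hE0]
  omega

theorem shc : SHC := by
  intro ι _ _ S C h t hhS ht h0
  have hb : #(Bs C h) = #(Be C h t 0) + #(Be C h t 1) := by
    have := sum_Be (M := ℕ) C h t (fun _ => 1)
    simpa using this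
  have hB := card_Be C h t ht
  constructor
  · have h1 := card_image C h t ht 0
    change 2 * #(C.image (contr h t)) + #(Bs C h) = 2 * #C
    omega
  · have c0 := claim S C h t ht h0 0
    have c1 := claim S C h t ht h0 1
    have hs := sum_Be (M := ℕ) C h t (fun x => gd S C x h)
    rw [Finset.sum_add_distrib, Finset.sum_const, smul_eq_mul, mul_one] at c0 c1
    change ecount S C ≤ ecount (shrink S h t) (C.image (contr h t)) + #(Bs C h) +
      ∑ x ∈ Bs C h, gd S C x h
    omega

end Pool.Agent.H73.CZ.SHC
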