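import Pool.Agent.H53.CZ.Targets

/-!
# Module UNI: universality of the subdivided complete bipartite graph
-/

namespace Pool.Agent.H73.CZ.UNI

open Finset Pool.Agent.H53.CZD

theorem LE.trans {V : Type} {G G' G'' : SimpleGraph V} (h : LE G G') (h' : LE G' G'') : LE G G'' := by
  induction h' with
  | refl => exact h
  | step v _ ih => exact LE.step v ih

theorem lc_adj {V : Type} (G : SimpleGraph V) (v a b : V) :
    (lc G v).Adj a b ↔ a ≠ b ∧ ¬ (G.Adj a b ↔ (G.Adj v a ∧ G.Adj v b)) := Iff.rfl

/-- Adjust the neighbours of `b` among the `α i` by local complementations at the `z i`. -/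
theorem step1 {V : Type} {t : ℕ} (G : SimpleGraph V) (α : Fin t → V) (b : V) (z : Fin t → V)
    (W : Set V) (hα : Function.Injective α) (hab : ∀ i, α i ≠ b) (hza : ∀ i j, z i ≠ α j)
    (hzb : ∀ i, z i ≠ b) (hzW : ∀ i, z i ∈ W) (hαW : ∀ i, α i ∈ W) (hbW : b ∈ W)
    (hz : ∀ i, ∀ w ∈ W, G.Adj (z i) w ↔ w = α i ∨ w = b) (P : Fin t → Prop) (s : Finset (Fin t)) :
    ∃ G1, LE G G1 ∧ (∀ u ∈ W, ∀ v ∈ W, (∀ i, ¬ (u = α i ∧ v = b) ∧ ¬ (u = b ∧ v = α i)) →
      (G1.Adj u v ↔ G.Adj u v)) ∧ ∀ i ∈ s, (G1.Adj b (α i) ↔ P i) := by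
  classical
  induction s using Finset.induction_on with
  | empty => exact ⟨G, LE.refl, fun _ _ _ _ _ => Iff.rfl, by simp⟩
  | insert i s his ih =>
    obtain ⟨G1, h1, h2, h3⟩ := ih
    by_cases hP : G1.Adj b (α i) ↔ P i
    · refine ⟨G1, h1, h2, ?_⟩
      intro j hj
      rcases Finset.mem_insert.1 hj with rfl | hj
      · exact hP
      · exact h3 j hj
    · have hz1 : ∀ w ∈ W, G1.Adj (z i) w ↔ w = α i ∨ w = b := by
        intro w hw
        rw [h2 (z i) (hzW i) w hw fun j => ⟨fun e => hza i j e.1, fun e => hzb i e.1⟩]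
        exact hz i w hw
      refine ⟨lc G1 (z i), LE.step _ h1, ?_, ?_⟩
      · intro u hu v hv huv
        rw [lc_adj, hz1 u hu, hz1 v hv, ← h2 u hu v hv huv]
        constructor
        · rintro ⟨h4, h5⟩
          by_contra h6
          apply h5
          refine ⟨fun h7 => absurd h7 h6, ?_⟩
          rintro ⟨h7 | h7, h8 | h8⟩
          · exact absurd (h7.trans h8.symm) h4
          · exact absurd ⟨h7, h8⟩ (huv i).1
          · exact absurd ⟨h7, h8⟩ (huv i).2
          · exact absurd (h7.trans h8.symm) h4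
        · intro h4
          refine ⟨h4.ne, fun h5 => ?_⟩
          obtain ⟨h7, h8⟩ := h5.1 h4
          rcases h7 with h7 | h7 <;> rcases h8 with h8 | h8
          · exact h4.ne (h7.trans h8.symm)
          · exact (huv i).1 ⟨h7, h8⟩
          · exact (huv i).2 ⟨h7, h8⟩
          · exact h4.ne (h7.trans h8.symm)
      · intro j hj
        rw [lc_adj, hz1 b hbW, hz1 (α j) (hαW j)]
        by_cases hji : j = i
        · subst hji
          have hne : b ≠ α j := fun e => hab j e.symm
          constructor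
          · rintro ⟨_, h5⟩
            by_contra h6
            apply h5
            refine ⟨fun _ => ⟨Or.inr rfl, Or.inl rfl⟩, fun _ => ?_⟩
            by_contra h7
            exact hP ⟨fun h => absurd h h7, fun h => absurd h h6⟩
          · intro h4
            refine ⟨hne, fun h5 => hP ⟨fun _ => h4, fun _ => h5.2 ⟨Or.inr rfl, Or.inl rfl⟩⟩⟩
        · have hj' : j ∈ s := by
            rcases Finset.mem_insert.1 hj with h | h
            · exact absurd h hji
            · exact h
          rw [← h3 j hj']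
          have hne : α j ≠ α i := fun e => hji (hα e)
          have hne2 : α j ≠ b := hab j
          constructor
          · rintro ⟨_, h5⟩
            by_contra h6
            apply h5
            refine ⟨fun h => absurd h h6, ?_⟩
            rintro ⟨_, h8 | h8⟩
            · exact absurd h8 hne
            · exact absurd h8 hne2
          · intro h4
            refine ⟨h4.ne, fun h5 => ?_⟩
            rcases (h5.1 h4).2 with h8 | h8
            · exact hne h8
            · exact hne2 h8

theorem uni : UNI := by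
  intro V t m
  induction m with
  | zero =>
    intro G α β ζ _ _ _ _ _ _ _ _ _ X hX _
    have hX0 : X = ∅ := Finset.card_eq_zero.1 (Nat.le_zero.1 hX)
    subst hX0
    refine ⟨G, LE.refl, fun i k _ => ?_⟩
    simp
  | succ m ih =>
    intro G α β ζ hα hβ hζ hαβ hζα hζβ hζα' hζβ' hζζ X hX hXd
    rcases X.eq_empty_or_nonempty with rfl | ⟨e, he⟩
    · refine ⟨G, LE.refl, fun i k _ => ?_⟩
      simp
    obtain ⟨k, l, rfl⟩ : ∃ k l, e = s(k, l) := by
      induction e using Sym2.ind with
      | _ k l => exact ⟨k, l, rfl⟩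
    have hkl : k ≠ l := by
      intro h
      exact hXd _ he (by rw [Sym2.mk_isDiag_iff]; exact h)
    -- the named vertices
    let W : Set V := {v | (∃ i, v = α i) ∨ (∃ j, v = β j) ∨ ∃ i j, v = ζ i j}
    have hWα : ∀ i, α i ∈ W := fun i => Or.inl ⟨i, rfl⟩
    have hWβ : ∀ j, β j ∈ W := fun j => Or.inr (Or.inl ⟨j, rfl⟩)
    have hWζ : ∀ i j, ζ i j ∈ W := fun i j => Or.inr (Or.inr ⟨i, j, rfl⟩)
    have hz : ∀ i, ∀ w ∈ W, G.Adj (ζ i (Fin.last m)) w ↔ w = α i ∨ w = β (Fin.last m) := by
      rintro i w (⟨i', rfl⟩ | ⟨j', rfl⟩ | ⟨i', j', rfl⟩)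
      · rw [hζα']
        constructor
        · rintro rfl
          exact Or.inl rfl
        · rintro (h | h)
          · exact hα h
          · exact absurd h (hαβ _ _)
      · rw [hζβ']
        constructor
        · rintro rfl
          exact Or.inr rfl
        · rintro (h | h)
          · exact absurd h.symm (hαβ _ _)
          · exact hβ h
      · constructor
        · intro h
          exact absurd h (hζζ _ _ _ _)
        · rintro (h | h)
          · exact absurd h (hζα _ _ _)
          · exact absurd h (hζβ _ _ _)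
    obtain ⟨G1, g1, g2, g3⟩ := step1 G α (β (Fin.last m)) (fun i => ζ i (Fin.last m)) W hα
      (fun i => hαβ i _) (fun i j => hζα _ _ _) (fun i => hζβ _ _ _) (fun i => hWζ _ _) hWα (hWβ _)
      hz (fun i => i = k ∨ i = l) Finset.univ
    have g3' : ∀ i, G1.Adj (β (Fin.last m)) (α i) ↔ (i = k ∨ i = l) := fun i => g3 i (by simp)
    -- adjacency in `G1`
    have a1 : ∀ i j, G1.Adj (α i) (α j) ↔ G.Adj (α i) (α j) := fun i j =>
      g2 _ (hWα i) _ (hWα j) fun i' => ⟨fun h => hαβ _ _ h.2, fun h => hαβ _ _ h.1⟩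
    have a2 : ∀ i j k', G1.Adj (ζ i j) (α k') ↔ k' = i := fun i j k' => by
      rw [g2 _ (hWζ i j) _ (hWα k') fun i' => ⟨fun h => hζα _ _ _ h.1, fun h => hζβ _ _ _ h.1⟩]
      exact hζα' i j k'
    have a3 : ∀ i j k', G1.Adj (ζ i j) (β k') ↔ k' = j := fun i j k' => by
      rw [g2 _ (hWζ i j) _ (hWβ k') fun i' => ⟨fun h => hζα _ _ _ h.1, fun h => hζβ _ _ _ h.1⟩]
      exact hζβ' i j k'
    have a4 : ∀ i j i' j', ¬ G1.Adj (ζ i j) (ζ i' j') := fun i j i' j' => by
      rw [g2 _ (hWζ i j) _ (hWζ i' j') fun i' => ⟨fun h => hζα _ _ _ h.1, fun h => hζβ _ _ _ h.1⟩]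
      exact hζζ i j i' j'
    -- the local complementation at the last `β`
    let G2 := lc G1 (β (Fin.last m))
    have hbz : ∀ i (j : Fin m), ¬ G1.Adj (β (Fin.last m)) (ζ i j.castSucc) := fun i j h => by
      have := (a3 i j.castSucc (Fin.last m)).1 h.symm
      exact absurd this.symm (Fin.castSucc_lt_last j).ne
    have b1 : ∀ i j : Fin t, i ≠ j → (G2.Adj (α i) (α j) ↔
        ¬ (G.Adj (α i) (α j) ↔ s(i, j) = s(k, l))) := by
      intro i j hij
      change (lc G1 (β (Fin.last m))).Adj (α i) (α j) ↔ _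
      rw [lc_adj, a1, g3', g3']
      have h1 : ((i = k ∨ i = l) ∧ (j = k ∨ j = l)) ↔ s(i, j) = s(k, l) := by
        rw [Sym2.eq_iff]
        constructor
        · rintro ⟨rfl | rfl, rfl | rfl⟩
          · exact absurd rfl hij
          · exact Or.inl ⟨rfl, rfl⟩
          · exact Or.inr ⟨rfl, rfl⟩
          · exact absurd rfl hij
        · rintro (⟨rfl, rfl⟩ | ⟨rfl, rfl⟩)
          · exact ⟨Or.inl rfl, Or.inr rfl⟩
          · exact ⟨Or.inr rfl, Or.inl rfl⟩
      rw [h1]
      constructor
      · exact fun h => h.2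
      · exact fun h => ⟨fun e => hij (hα e), h⟩
    have b0 : ∀ (i : Fin t) (j : Fin m) (v : V), G2.Adj (ζ i j.castSucc) v ↔
        G1.Adj (ζ i j.castSucc) v := by
      intro i j v
      change (lc G1 (β (Fin.last m))).Adj (ζ i j.castSucc) v ↔ _
      rw [lc_adj]
      have := hbz i j
      constructor
      · rintro ⟨h1, h2⟩
        by_contra h3
        exact h2 ⟨fun h => absurd h h3, fun h => absurd h.1 this⟩
      · intro h
        exact ⟨h.ne, fun h2 => this (h2.1 h).1⟩
    obtain ⟨G', e1, e2⟩ := ih G2 α (fun j => β j.castSucc) (fun i j => ζ i j.castSucc) hα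
      (fun a b h => Fin.castSucc_injective m (hβ h))
      (fun i j i' j' h => ⟨(hζ _ _ _ _ h).1, Fin.castSucc_injective m (hζ _ _ _ _ h).2⟩)
      (fun i j => hαβ _ _) (fun i j k' => hζα _ _ _) (fun i j k' => hζβ _ _ _)
      (fun i j k' => by rw [b0]; exact a2 _ _ _)
      (fun i j k' => by
        rw [b0, a3]
        exact ⟨fun h => Fin.castSucc_injective m h, fun h => by rw [h]⟩)
      (fun i j i' j' => by rw [b0]; exact a4 _ _ _ _) (X.erase s(k, l))
      (by rw [Finset.card_erase_of_mem he]; omega)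
      (fun e h => hXd e (Finset.mem_of_mem_erase h))
    refine ⟨G', LE.trans (LE.step _ g1) e1, fun i j hij => ?_⟩
    rw [e2 i j hij, b1 i j hij, Finset.mem_erase]
    by_cases h : s(i, j) = s(k, l)
    · rw [h]
      simp [he]
    · simp only [ne_eq, h, not_false_eq_true, true_and, iff_false, not_not]

end Pool.Agent.H73.CZ.UNI
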